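import Pool.Agent.Q36.AT.Fin

set_option autoImplicit false

namespace Pool.Agent.Results.MP_63fcef_ag.QuadricCharTwo

open Q36.AT in
theorem result : ∀ (k : Type) [Field k] [IsAlgClosed k] [CharP k 2],
    ∃ (K : Type) (_ : Field K) (_ : Algebra k K) (f : Fin 5 → K),
      f 4 ^ 2 = f 0 * f 1 + f 2 * f 3 ∧
      IsVariety k f ∧ Algebra.trdeg k K = 3 ∧ IsSmooth k f ∧
      (∃ L : LineBundle k f, L.IsAmple ∧
        ∃ D : Derivation k K K, D ≠ 0 ∧ L.MapsToTangent D) ∧
      ¬ IsProjectiveSpace k f := by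
  intro k _ _ _
  refine ⟨FF k, inferInstance, inferInstance, quad k, ?_, quad_variety, trdeg_FF, quad_smooth,
    ⟨bundleO1 (quad k), bundleO1_ample (quad k), quad_tangent⟩, quad_not_proj⟩
  have h2 : (2 : FF k) = 0 := by
    have h : (2 : k) = 0 := CharTwo.two_eq_zero
    have : algebraMap k (FF k) 2 = 2 := map_ofNat _ 2
    rw [← this, h, map_zero]
  have e0 : quad k 0 = 1 := rfl
  have e1 : quad k 1 = vv k 0 ^ 2 + vv k 1 * vv k 2 := rfl
  have v0 : quad k 4 = vv k 0 := rfl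
  have v1 : quad k 2 = vv k 1 := rfl
  have v2 : quad k 3 = vv k 2 := rfl
  rw [e0, e1, v0, v1, v2]
  linear_combination (-(vv k 1 * vv k 2)) * h2

end Pool.Agent.Results.MP_63fcef_ag.QuadricCharTwo
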